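import Mathlib
set_option autoImplicit false
open Finset
namespace Pool.Agent.Results.MP_060d7c_co.Lower

/-- The grid `{1, …, m}^d`. -/
noncomputable def grid (d m : ℕ) : Finset (Fin d → ℤ) := Fintype.piFinset (fun _ => Finset.Icc (1 : ℤ) m)

/-- The Euclidean distance of two integer points. -/
noncomputable def dst {d : ℕ} (p q : Fin d → ℤ) : ℝ := Real.sqrt (∑ i, ((p i : ℝ) - q i) ^ 2)

/-- No repeated distance: two pairs of distinct points at equal distance are the same pair. -/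
def NoRep {d : ℕ} (S : Finset (Fin d → ℤ)) : Prop :=
  ∀ p ∈ S, ∀ q ∈ S, ∀ p' ∈ S, ∀ q' ∈ S, p ≠ q → p' ≠ q' → dst p q = dst p' q' →
    (p = p' ∧ q = q') ∨ (p = q' ∧ q = p')

def Hyp (F : Type) [Field F] (d r : ℕ) : Prop :=
  ∃ (δ : F) (A B : (Fin d → F) → Fin r → F) (C : (Fin d → F) → F), (δ = 1 ∨ δ = -1) ∧
    (∀ x y, A (x - y) = A x - A y) ∧ (∀ x y, B (x - y) = B x - B y) ∧
    (∀ x y, C (x - y) = C x - C y) ∧
    (∀ x, ∑ i, x i ^ 2 = δ * (∑ j, A x j * B x j + C x ^ 2)) ∧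
    (∀ x, A x = 0 → B x = 0 → C x = 0 → x = 0)

lemma hyp_base (F : Type) [Field F] : Hyp F 1 0 := by
  refine ⟨1, fun _ => 0, fun _ => 0, fun x => x 0, Or.inl rfl, by simp, by simp, by simp, by simp, ?_⟩
  intro x _ _ h
  funext i
  have : i = 0 := Subsingleton.elim _ _
  subst this
  simpa using h

lemma hyp_step (F : Type) [Field F] (h2 : (2 : F) ≠ 0) (α β : F) (hab : α ^ 2 + β ^ 2 = -1)
    (d r : ℕ) (h : Hyp F d r) : Hyp F (d + 2) (r + 1) := by
  obtain ⟨δ, A, B, C, hδ, hA, hB, hC, hQ, hI⟩ := h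
  set t : (Fin (d + 2) → F) → Fin d → F := fun x i => x i.succ.succ with ht
  have tsub : ∀ x y, t (x - y) = t x - t y := fun x y => rfl
  have hsum : ∀ x : Fin (d + 2) → F, ∑ i, x i ^ 2 = x 0 ^ 2 + x 1 ^ 2 + ∑ i, t x i ^ 2 := by
    intro x
    rw [Fin.sum_univ_succ, Fin.sum_univ_succ]
    exact (add_assoc _ _ _).symm
  have hzero : ∀ x : Fin (d + 2) → F, x 0 = 0 → x 1 = 0 → t x = 0 → x = 0 := by
    intro x h0 h1 h3
    funext i
    refine Fin.cases ?_ (fun j => ?_) i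
    · exact h0
    · refine Fin.cases ?_ (fun k => ?_) j
      · exact h1
      · exact congrFun h3 k
  rcases hδ with rfl | rfl
  · refine ⟨-1, fun x => Fin.cons (α * C (t x) + β * x 0 + x 1) (-A (t x)),
      fun x => Fin.cons (α * C (t x) + β * x 0 - x 1) (B (t x)),
      fun x => -β * C (t x) + α * x 0, Or.inr rfl, ?_, ?_, ?_, ?_, ?_⟩
    · intro x y
      funext j
      refine Fin.cases ?_ (fun k => ?_) j
      · simp [tsub, hC]; ring
      · simp [tsub, hA]; ring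
    · intro x y
      funext j
      refine Fin.cases ?_ (fun k => ?_) j
      · simp [tsub, hC]; ring
      · simp [tsub, hB]
    · intro x y
      simp [tsub, hC]; ring
    · intro x
      rw [hsum, hQ, Fin.sum_univ_succ]
      simp only [Fin.cons_zero, Fin.cons_succ, Pi.neg_apply, neg_mul, Finset.sum_neg_distrib]
      linear_combination (C (t x) ^ 2 + x 0 ^ 2) * hab
    · intro x a0 b0 c0
      have a1 := congrFun a0 0
      have b1 := congrFun b0 0
      simp only [Fin.cons_zero, Pi.zero_apply] at a1 b1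
      have a2 : A (t x) = 0 := by
        funext k
        have := congrFun a0 k.succ
        simpa using this
      have b2 : B (t x) = 0 := by
        funext k
        have := congrFun b0 k.succ
        simpa using this
      have z0 : x 1 = 0 := by
        have : (2 : F) * x 1 = 0 := by linear_combination a1 - b1
        exact (mul_eq_zero.mp this).resolve_left h2
      have c0' : -β * C (t x) + α * x 0 = 0 := c0
      have e1 : C (t x) = 0 := by
        linear_combination (-α) * a1 + α * z0 + β * c0' + C (t x) * hab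
      have e2 : x 0 = 0 := by
        linear_combination (-β) * a1 + β * z0 - α * c0' + x 0 * hab
      exact hzero x e2 z0 (hI _ a2 b2 e1)
  · refine ⟨1, fun x => Fin.cons (x 0 - C (t x)) (-A (t x)),
      fun x => Fin.cons (x 0 + C (t x)) (B (t x)),
      fun x => x 1, Or.inl rfl, ?_, ?_, ?_, ?_, ?_⟩
    · intro x y
      funext j
      refine Fin.cases ?_ (fun k => ?_) j
      · simp [tsub, hC]; ring
      · simp [tsub, hA]; ring
    · intro x y
      funext j
      refine Fin.cases ?_ (fun k => ?_) j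
      · simp [tsub, hC]; ring
      · simp [tsub, hB]
    · intro x y
      simp
    · intro x
      rw [hsum, hQ, Fin.sum_univ_succ]
      simp only [Fin.cons_zero, Fin.cons_succ, Pi.neg_apply, neg_mul, Finset.sum_neg_distrib]
      ring
    · intro x a0 b0 c0
      have a1 := congrFun a0 0
      have b1 := congrFun b0 0
      simp only [Fin.cons_zero, Pi.zero_apply] at a1 b1
      have a2 : A (t x) = 0 := by
        funext k
        have := congrFun a0 k.succ
        simpa using this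
      have b2 : B (t x) = 0 := by
        funext k
        have := congrFun b0 k.succ
        simpa using this
      have y0 : x 0 = 0 := by
        have : (2 : F) * x 0 = 0 := by linear_combination a1 + b1
        exact (mul_eq_zero.mp this).resolve_left h2
      have e1 : C (t x) = 0 := by linear_combination b1 - y0
      exact hzero x y0 c0 (hI _ a2 b2 e1)

lemma hyp_all (q : ℕ) [Fact q.Prime] (h2 : (2 : ZMod q) ≠ 0) (r : ℕ) :
    Hyp (ZMod q) (2 * r + 1) r := by
  obtain ⟨α, β, hab⟩ := ZMod.sq_add_sq q (-1)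
  induction r with
  | zero => exact hyp_base _
  | succ r ih => exact hyp_step _ h2 α β hab _ _ ih

lemma sidon (q p : ℕ) (hp : p.Prime) (hp2 : 2 < p) (hq : 4 * p ^ 2 ≤ q) :
    ∃ T : Finset (ZMod q), T.card = p ∧ ∀ a ∈ T, ∀ b ∈ T, ∀ a' ∈ T, ∀ b' ∈ T,
      a ≠ b → a - b = a' - b' → a = a' ∧ b = b' := by
  classical
  have := Fact.mk hp
  set t : ℕ → ℕ := fun k => 2 * p * k + k ^ 2 % p with ht
  have tl : ∀ k < p, t k < 2 * p ^ 2 := by
    intro k hk
    have := Nat.mod_lt (k ^ 2) hp.pos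
    simp only [ht]
    nlinarith
  have key : ∀ k < p, ∀ l < p, ∀ k' < p, ∀ l' < p,
      ((t k : ZMod q) - t l = (t k' : ZMod q) - t l') →
        k + l' = k' + l ∧ k ^ 2 % p + l' ^ 2 % p = k' ^ 2 % p + l ^ 2 % p := by
    intro k hk l hl k' hk' l' hl' h
    have h1 : ((t k + t l' : ℕ) : ZMod q) = ((t k' + t l : ℕ) : ZMod q) := by
      push_cast; linear_combination h
    rw [ZMod.natCast_eq_natCast_iff'] at h1
    have := tl k hk; have := tl l hl; have := tl k' hk'; have := tl l' hl'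
    rw [Nat.mod_eq_of_lt (by omega), Nat.mod_eq_of_lt (by omega)] at h1
    simp only [ht] at h1
    have m1 := Nat.mod_lt (k ^ 2) hp.pos
    have m2 := Nat.mod_lt (l ^ 2) hp.pos
    have m3 := Nat.mod_lt (k' ^ 2) hp.pos
    have m4 := Nat.mod_lt (l' ^ 2) hp.pos
    have e : k + l' = k' + l := by
      rcases lt_trichotomy (k + l') (k' + l) with h | h | h
      · have := Nat.mul_le_mul_left (2 * p) (Nat.succ_le_of_lt h)
        simp only [Nat.succ_eq_add_one, mul_add] at this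
        omega
      · exact h
      · have := Nat.mul_le_mul_left (2 * p) (Nat.succ_le_of_lt h)
        simp only [Nat.succ_eq_add_one, mul_add] at this
        omega
    refine ⟨e, ?_⟩
    have : 2 * p * k + 2 * p * l' = 2 * p * k' + 2 * p * l := by
      rw [← mul_add, ← mul_add, e]
    omega
  have cast_inj : ∀ k < p, ∀ l < p, (k : ZMod p) = l → k = l := by
    intro k hk l hl h
    rw [ZMod.natCast_eq_natCast_iff', Nat.mod_eq_of_lt hk, Nat.mod_eq_of_lt hl] at h
    exact h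
  refine ⟨(range p).image (fun k => (t k : ZMod q)), ?_, ?_⟩
  · rw [Finset.card_image_of_injOn, card_range]
    intro k hk l hl h
    have hk' : k < p := by simpa using hk
    have hl' : l < p := by simpa using hl
    have := (key k hk' l hl' 0 hp.pos 0 hp.pos (by simp only at h; rw [h]; simp)).1
    omega
  · intro a ha b hb a' ha' b' hb' hne h
    simp only [mem_image, mem_range] at ha hb ha' hb'
    obtain ⟨k, hk, rfl⟩ := ha
    obtain ⟨l, hl, rfl⟩ := hb
    obtain ⟨k', hk', rfl⟩ := ha'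
    obtain ⟨l', hl', rfl⟩ := hb'
    obtain ⟨e1, e2⟩ := key k hk l hl k' hk' l' hl' h
    have hkl : k ≠ l := fun e => hne (by rw [e])
    have f1 : (k : ZMod p) + l' = k' + l := by exact_mod_cast congrArg (Nat.cast : ℕ → ZMod p) e1
    have f2 : (k : ZMod p) ^ 2 + (l' : ZMod p) ^ 2 = (k' : ZMod p) ^ 2 + (l : ZMod p) ^ 2 := by
      have := congrArg (Nat.cast : ℕ → ZMod p) e2
      simpa using this
    have f3 : (k : ZMod p) - l ≠ 0 := fun e => hkl (cast_inj k hk l hl (sub_eq_zero.mp e))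
    have f4 : (2 : ZMod p) ≠ 0 := by
      intro e
      have := cast_inj 2 hp2 0 hp.pos (by simpa using e)
      omega
    have f5 : (2 : ZMod p) * (((k : ZMod p) - l) * ((k : ZMod p) - k')) = 0 := by
      have : (l' : ZMod p) = k' + l - k := by linear_combination f1
      rw [this] at f2
      linear_combination f2
    have f6 : (k : ZMod p) = k' :=
      sub_eq_zero.mp ((mul_eq_zero.mp ((mul_eq_zero.mp f5).resolve_left f4)).resolve_left f3)
    have g1 := cast_inj k hk k' hk' f6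
    have g2 : l = l' := by omega
    rw [g1, g2]
    exact ⟨rfl, rfl⟩

section
variable {F : Type} [Field F] {r : ℕ}

def gg (ω : (Fin r → F) × (Fin r → Fin r → F)) (a b : Fin r → F) (c : F) : Fin r → F :=
  fun j => b j - ∑ k, (ω.2 j k - ω.2 k j) * a k + 2 * c * ω.1 j - (∑ k, ω.1 k * a k) * ω.1 j

def ww (ω : (Fin r → F) × (Fin r → Fin r → F)) (a : Fin r → F) (c : F) : F :=
  c - ∑ k, ω.1 k * a k

lemma gg_sub (ω : (Fin r → F) × (Fin r → Fin r → F)) (a b a' b' : Fin r → F) (c c' : F) :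
    gg ω (a - a') (b - b') (c - c') = gg ω a b c - gg ω a' b' c' := by
  funext j
  simp only [gg, Pi.sub_apply, mul_sub, Finset.sum_sub_distrib]
  ring

lemma ww_sub (ω : (Fin r → F) × (Fin r → Fin r → F)) (a a' : Fin r → F) (c c' : F) :
    ww ω (a - a') (c - c') = ww ω a c - ww ω a' c' := by
  simp only [ww, Pi.sub_apply, mul_sub, Finset.sum_sub_distrib]
  ring

lemma quad (ω : (Fin r → F) × (Fin r → Fin r → F)) (a b : Fin r → F) (c : F)
    (h : gg ω a b c = 0) : ∑ j, a j * b j + c ^ 2 = ww ω a c ^ 2 := by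
  have hb : ∀ j, a j * b j = (∑ k, a j * ω.2 j k * a k - ∑ k, a k * ω.2 k j * a j)
      - 2 * c * (ω.1 j * a j) + (∑ k, ω.1 k * a k) * (ω.1 j * a j) := by
    intro j
    have h1 : b j - ∑ k, (ω.2 j k - ω.2 k j) * a k + 2 * c * ω.1 j
      - (∑ k, ω.1 k * a k) * ω.1 j = 0 := congrFun h j
    have h2 : ∑ k, a j * ω.2 j k * a k - ∑ k, a k * ω.2 k j * a j
        = a j * ∑ k, (ω.2 j k - ω.2 k j) * a k := by
      rw [← Finset.sum_sub_distrib, Finset.mul_sum]
      exact Finset.sum_congr rfl (fun k _ => by ring)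
    rw [h2]
    linear_combination (a j) * h1
  simp only [hb, Finset.sum_add_distrib, Finset.sum_sub_distrib, ← Finset.mul_sum, ww]
  rw [Finset.sum_comm (f := fun j k => a k * ω.2 k j * a j)]
  ring

lemma bad_count [Fintype F] [DecidableEq F] (a b : Fin r → F) (c : F) (ha : a ≠ 0) :
    (univ.filter (fun ω : (Fin r → F) × (Fin r → Fin r → F) => gg ω a b c = 0 ∧ ww ω a c = 0)).card
      * Fintype.card F ^ r ≤ Fintype.card ((Fin r → F) × (Fin r → Fin r → F)) := by
  obtain ⟨i, hi⟩ := Function.ne_iff.mp ha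
  have hi : a i ≠ 0 := hi
  set τ : (Fin r → F) → (Fin r → F) × (Fin r → Fin r → F) :=
    fun t => (fun k => if k = i then t i else 0, fun j k => if k = i ∧ j ≠ i then t j else 0) with hτ
  have hc : Fintype.card F ^ r = (univ : Finset (Fin r → F)).card := by simp
  rw [hc, ← Finset.card_product, ← Finset.card_univ]
  refine Finset.card_le_card_of_injOn (fun z => z.1 + τ z.2) (fun _ _ => by simp) ?_
  rintro ⟨ω, t⟩ h1 ⟨ω', t'⟩ h2 h
  simp only [coe_product, coe_filter, mem_univ, true_and, coe_univ, Set.mem_prod,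
    Set.mem_ofPred_eq, Set.mem_univ, and_true] at h1 h2
  have e1 : ∀ k, ω.1 k + (if k = i then t i else 0) = ω'.1 k + (if k = i then t' i else 0) :=
    fun k => congrFun (congrArg Prod.fst h) k
  have e2 : ∀ j k, ω.2 j k + (if k = i ∧ j ≠ i then t j else 0)
      = ω'.2 j k + (if k = i ∧ j ≠ i then t' j else 0) :=
    fun j k => congrFun (congrFun (congrArg Prod.snd h) j) k
  have s1 : ∑ k, ω.1 k * a k + t i * a i = ∑ k, ω'.1 k * a k + t' i * a i := by
    have := Finset.sum_congr (s₁ := univ) rfl (fun k _ => congrArg (· * a k) (e1 k))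
    simpa [add_mul, Finset.sum_add_distrib] using this
  have ti : t i = t' i := by
    have u1 := h1.2
    have u2 := h2.2
    simp only [ww] at u1 u2
    have : (t i - t' i) * a i = 0 := by linear_combination s1 + u1 - u2
    exact sub_eq_zero.mp ((mul_eq_zero.mp this).resolve_right hi)
  have o1 : ω.1 = ω'.1 := by
    funext k
    have := e1 k
    rw [ti] at this
    exact add_right_cancel this
  have tt : t = t' := by
    funext j
    by_cases hj : j = i
    · rw [hj, ti]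
    · have u1 : b j - ∑ k, (ω.2 j k - ω.2 k j) * a k + 2 * c * ω.1 j
        - (∑ k, ω.1 k * a k) * ω.1 j = 0 := congrFun h1.1 j
      have u2 : b j - ∑ k, (ω'.2 j k - ω'.2 k j) * a k + 2 * c * ω'.1 j
        - (∑ k, ω'.1 k * a k) * ω'.1 j = 0 := congrFun h2.1 j
      rw [← o1] at u2
      have s2 : ∑ k, (ω.2 j k - ω.2 k j) * a k + t j * a i
          = ∑ k, (ω'.2 j k - ω'.2 k j) * a k + t' j * a i := by
        have : ∀ k, (ω.2 j k - ω.2 k j) * a k + (if k = i then t j * a k else 0)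
            = (ω'.2 j k - ω'.2 k j) * a k + (if k = i then t' j * a k else 0) := by
          intro k
          have v1 := e2 j k
          have v2 := e2 k j
          simp only [hj, false_and, if_false, add_zero] at v2
          by_cases hk : k = i
          · simp only [hk, ne_eq, hj, not_false_eq_true, and_self, if_true] at v1 v2 ⊢
            linear_combination (a i) * v1 - (a i) * v2
          · simp only [hk, false_and, if_false, add_zero] at v1 ⊢
            rw [v1, v2]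
        have := Finset.sum_congr (s₁ := univ) rfl (fun k _ => this k)
        simpa [Finset.sum_add_distrib] using this
      have : (t j - t' j) * a i = 0 := by linear_combination s2 + u1 - u2
      exact sub_eq_zero.mp ((mul_eq_zero.mp this).resolve_right hi)
  subst tt
  have : ω = ω' := add_right_cancel h
  rw [this]

lemma good_exists [Fintype F] [DecidableEq F] {ι : Type} (X : Finset ι) (a b : ι → Fin r → F)
    (c : ι → F) (ha : ∀ x ∈ X, a x ≠ 0) (hX : X.card < Fintype.card F ^ r) :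
    ∃ ω : (Fin r → F) × (Fin r → Fin r → F), ∀ x ∈ X,
      ¬ (gg ω (a x) (b x) (c x) = 0 ∧ ww ω (a x) (c x) = 0) := by
  by_contra hn
  push Not at hn
  have h1 : (univ : Finset ((Fin r → F) × (Fin r → Fin r → F))) ⊆ X.biUnion (fun x =>
      univ.filter (fun ω => gg ω (a x) (b x) (c x) = 0 ∧ ww ω (a x) (c x) = 0)) := by
    intro ω _
    obtain ⟨x, hx, h⟩ := hn ω
    simp only [mem_biUnion, mem_filter, mem_univ, true_and]
    exact ⟨x, hx, h⟩
  have h2 := (Finset.card_le_card h1).trans Finset.card_biUnion_le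
  have h3 := Nat.mul_le_mul_right (Fintype.card F ^ r) h2
  rw [Finset.sum_mul] at h3
  have h4 := h3.trans (Finset.sum_le_sum (fun x hx => bad_count (a x) (b x) (c x) (ha x hx)))
  rw [Finset.sum_const, smul_eq_mul, Finset.card_univ] at h4
  have h5 : 0 < Fintype.card ((Fin r → F) × (Fin r → Fin r → F)) := Fintype.card_pos
  nlinarith

end

noncomputable def box (d m : ℕ) : Finset (Fin d → ℤ) :=
  Fintype.piFinset (fun _ => Finset.Ioo (-(m : ℤ)) m)

noncomputable def XX (d m q : ℕ) : Finset (Fin d → ℤ) :=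
  (box d m).filter (fun x => x ≠ 0 ∧ (q : ℤ) ∣ ∑ i, x i ^ 2)

lemma edist_sq {d : ℕ} (p q p' q' : Fin d → ℤ) (h : dst p q = dst p' q') :
    ∑ i, (p i - q i) ^ 2 = ∑ i, (p' i - q' i) ^ 2 := by
  unfold dst at h
  rw [Real.sqrt_inj (by positivity) (by positivity)] at h
  exact_mod_cast h

lemma core (r m q p : ℕ) [Fact q.Prime] (hp : p.Prime) (hp2 : 2 < p) (hq : 4 * p ^ 2 ≤ q)
    (hm : m ≤ q) (hX : (XX (2 * r + 1) m q).card < q ^ r) :
    ∃ S ⊆ grid (2 * r + 1) m, NoRep S ∧ m ^ (2 * r + 1) * p ≤ S.card * q ^ (r + 1) := by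
  classical
  have h2 : (2 : ZMod q) ≠ 0 := by
    intro e
    have : ((2 : ℕ) : ZMod q) = 0 := by simpa using e
    rw [ZMod.natCast_eq_zero_iff] at this
    have := Nat.le_of_dvd two_pos this
    nlinarith
  obtain ⟨δ, A, B, C, hδ, hA, hB, hC, hQ, hI⟩ := hyp_all q h2 r
  have hδ0 : δ ≠ 0 := by rcases hδ with rfl | rfl <;> simp
  obtain ⟨T, hT, hS⟩ := sidon q p hp hp2 hq
  set f : (Fin (2 * r + 1) → ℤ) → Fin (2 * r + 1) → ZMod q := fun x i => (x i : ZMod q) with hf
  have fsub : ∀ x y, f (x - y) = f x - f y := by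
    intro x y; funext i; simp [hf]
  have fQ : ∀ x, ((∑ i, x i ^ 2 : ℤ) : ZMod q) = ∑ i, f x i ^ 2 := by
    intro x; simp [hf]
  have f0 : ∀ x ∈ box (2 * r + 1) m, f x = 0 → x = 0 := by
    intro x hx h
    funext i
    have h1 : ((x i : ℤ) : ZMod q) = 0 := congrFun h i
    rw [ZMod.intCast_zmod_eq_zero_iff_dvd] at h1
    have h3 := Fintype.mem_piFinset.mp hx i
    rw [Finset.mem_Ioo] at h3
    have h4 : (m : ℤ) ≤ q := by exact_mod_cast hm
    exact Int.eq_zero_of_abs_lt_dvd h1 (by rw [abs_lt]; constructor <;> omega)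
  obtain ⟨ω, hω⟩ := good_exists ((XX (2 * r + 1) m q).filter (fun x => A (f x) ≠ 0))
    (fun x => A (f x)) (fun x => B (f x)) (fun x => C (f x)) (fun x hx => (mem_filter.mp hx).2)
    (by rw [ZMod.card]; exact (Finset.card_filter_le _ _).trans_lt hX)
  set g : (Fin (2 * r + 1) → ℤ) → Fin r → ZMod q := fun x => gg ω (A (f x)) (B (f x)) (C (f x))
    with hg
  set w : (Fin (2 * r + 1) → ℤ) → ZMod q := fun x => ww ω (A (f x)) (C (f x)) with hw
  have gsub : ∀ x y, g (x - y) = g x - g y := by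
    intro x y; simp only [hg, fsub, hA, hB, hC, gg_sub]
  have wsub : ∀ x y, w (x - y) = w x - w y := by
    intro x y; simp only [hw, fsub, hA, hC, ww_sub]
  have gQ : ∀ x, g x = 0 → ((∑ i, x i ^ 2 : ℤ) : ZMod q) = δ * w x ^ 2 := by
    intro x hx
    rw [fQ, hQ, quad ω _ _ _ hx]
  have inj0 : ∀ x ∈ box (2 * r + 1) m, g x = 0 → w x = 0 → x = 0 := by
    intro x hx g0 w0
    by_contra hne
    by_cases ha : A (f x) = 0
    · have c0 : C (f x) = 0 := by simpa [hw, ww, ha] using w0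
      have b0 : B (f x) = 0 := by
        funext j
        have := congrFun g0 j
        simpa [hg, gg, ha, c0] using this
      exact hne (f0 x hx (hI _ ha b0 c0))
    · refine hω x ?_ ⟨g0, w0⟩
      simp only [XX, mem_filter]
      refine ⟨⟨hx, hne, ?_⟩, ha⟩
      rw [← ZMod.intCast_zmod_eq_zero_iff_dvd, gQ x g0, w0]
      simp
  have dbox : ∀ x ∈ grid (2 * r + 1) m, ∀ y ∈ grid (2 * r + 1) m, x - y ∈ box (2 * r + 1) m := by
    intro x hx y hy
    refine Fintype.mem_piFinset.mpr (fun i => ?_)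
    have h1 := Finset.mem_Icc.mp (Fintype.mem_piFinset.mp hx i)
    have h3 := Finset.mem_Icc.mp (Fintype.mem_piFinset.mp hy i)
    simp only [Pi.sub_apply, Finset.mem_Ioo]
    constructor <;> omega
  have inj : ∀ x ∈ grid (2 * r + 1) m, ∀ y ∈ grid (2 * r + 1) m, g x = g y → w x = w y → x = y := by
    intro x hx y hy e1 e2
    exact sub_eq_zero.mp (inj0 _ (dbox x hx y hy) (by rw [gsub, e1, sub_self])
      (by rw [wsub, e2, sub_self]))
  set φ : (Fin (2 * r + 1) → ℤ) × ZMod q → (Fin r → ZMod q) × ZMod q :=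
    fun z => (g z.1, w z.1 - z.2) with hφ
  obtain ⟨v, -, hv⟩ := Finset.exists_max_image (univ : Finset ((Fin r → ZMod q) × ZMod q))
    (fun v => ((grid (2 * r + 1) m ×ˢ T).filter (fun z => φ z = v)).card) univ_nonempty
  have hcnt := Finset.card_le_mul_card_image_of_maps_to (s := grid (2 * r + 1) m ×ˢ T)
    (t := univ) (f := φ) (fun _ _ => mem_univ _) _ hv
  set S := (grid (2 * r + 1) m).filter (fun x => g x = v.1 ∧ w x - v.2 ∈ T) with hSd
  have hle : ((grid (2 * r + 1) m ×ˢ T).filter (fun z => φ z = v)).card ≤ S.card := by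
    refine Finset.card_le_card_of_injOn Prod.fst ?_ ?_
    · intro z hz
      simp only [coe_filter, mem_product, Set.mem_ofPred_eq] at hz
      obtain ⟨⟨z1, z2⟩, z3⟩ := hz
      simp only [hSd, coe_filter, Set.mem_ofPred_eq]
      refine ⟨z1, congrArg Prod.fst z3, ?_⟩
      have : w z.1 - z.2 = v.2 := congrArg Prod.snd z3
      rw [← this]
      simpa using z2
    · intro z hz z' hz' e
      simp only [coe_filter, mem_product, Set.mem_ofPred_eq] at hz hz'
      have u1 : w z.1 - z.2 = v.2 := congrArg Prod.snd hz.2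
      have u2 : w z'.1 - z'.2 = v.2 := congrArg Prod.snd hz'.2
      refine Prod.ext e ?_
      have e' : z.1 = z'.1 := e
      rw [e'] at u1
      linear_combination u2 - u1
  refine ⟨S, Finset.filter_subset _ _, ?_, ?_⟩
  · intro x hx y hy x' hx' y' hy' hxy hxy' hd
    simp only [hSd, mem_filter] at hx hy hx' hy'
    have e := edist_sq _ _ _ _ hd
    have e1 := gQ (x - y) (by rw [gsub, hx.2.1, hy.2.1, sub_self])
    have e2 := gQ (x' - y') (by rw [gsub, hx'.2.1, hy'.2.1, sub_self])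
    simp only [Pi.sub_apply] at e1 e2
    rw [e, e2, wsub, wsub] at e1
    have e3 := mul_left_cancel₀ hδ0 e1
    have hne : w x - v.2 ≠ w y - v.2 := by
      intro h
      exact hxy (inj x hx.1 y hy.1 (by rw [hx.2.1, hy.2.1]) (by linear_combination h))
    rcases sq_eq_sq_iff_eq_or_eq_neg.mp e3 with h | h
    · obtain ⟨u1, u2⟩ := hS _ hx.2.2 _ hy.2.2 _ hx'.2.2 _ hy'.2.2 hne (by linear_combination -h)
      exact Or.inl ⟨inj x hx.1 x' hx'.1 (by rw [hx.2.1, hx'.2.1]) (by linear_combination u1),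
        inj y hy.1 y' hy'.1 (by rw [hy.2.1, hy'.2.1]) (by linear_combination u2)⟩
    · obtain ⟨u1, u2⟩ := hS _ hx.2.2 _ hy.2.2 _ hy'.2.2 _ hx'.2.2 hne (by linear_combination h)
      exact Or.inr ⟨inj x hx.1 y' hy'.1 (by rw [hx.2.1, hy'.2.1]) (by linear_combination u1),
        inj y hy.1 x' hx'.1 (by rw [hy.2.1, hx'.2.1]) (by linear_combination u2)⟩
  · have c1 : (grid (2 * r + 1) m).card = m ^ (2 * r + 1) := by simp [grid]
    have c2 : (univ : Finset ((Fin r → ZMod q) × ZMod q)).card = q ^ (r + 1) := by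
      simp [pow_succ]
    rw [Finset.card_product, c1, hT, c2] at hcnt
    exact hcnt.trans (Nat.mul_le_mul_right _ hle)

lemma primes_many (n : ℕ) (hn : 10 ^ 12 ≤ n) :
    (n : ℝ) ≤ ((Ioc n (4 * n)).filter Nat.Prime).card * Real.log (4 * n) := by
  have h1 := Chebyshev.theta_ge (4 * n)
  have h2 := Chebyshev.theta_le_log4_mul_x (x := (n : ℝ)) (by positivity)
  rw [Chebyshev.theta_eq_sum_primesLE_log] at h1 h2
  have hsub : Nat.primesLE (4 * n) ⊆ Nat.primesLE n ∪ (Ioc n (4 * n)).filter Nat.Prime := by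
    intro p hp
    simp only [Nat.mem_primesLE, mem_union, mem_filter, mem_Ioc] at hp ⊢
    by_cases h : p ≤ n
    · exact Or.inl ⟨h, hp.2⟩
    · exact Or.inr ⟨⟨by omega, hp.1⟩, hp.2⟩
  have h3 : ∑ p ∈ Nat.primesLE (4 * n), Real.log p ≤ ∑ p ∈ Nat.primesLE n, Real.log p
      + ∑ p ∈ (Ioc n (4 * n)).filter Nat.Prime, Real.log p := by
    refine (Finset.sum_le_sum_of_subset_of_nonneg hsub
      (fun i _ _ => Real.log_natCast_nonneg i)).trans ?_
    rw [← Finset.sum_union_inter]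
    have : 0 ≤ ∑ p ∈ Nat.primesLE n ∩ (Ioc n (4 * n)).filter Nat.Prime, Real.log p :=
      Finset.sum_nonneg (fun i _ => Real.log_natCast_nonneg i)
    linarith
  have h4 : ∑ p ∈ (Ioc n (4 * n)).filter Nat.Prime, Real.log p
      ≤ ((Ioc n (4 * n)).filter Nat.Prime).card * Real.log (4 * n) := by
    rw [← nsmul_eq_mul]
    refine Finset.sum_le_card_nsmul _ _ _ (fun p hp => ?_)
    simp only [mem_filter, mem_Ioc] at hp
    refine Real.log_le_log (by exact_mod_cast hp.2.pos) (by exact_mod_cast hp.1.2)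
  have hn' : (10 : ℝ) ^ 12 ≤ n := by exact_mod_cast hn
  set u : ℝ := Real.sqrt (Real.sqrt (4 * n)) with hu
  have u2 : u ^ 2 = Real.sqrt (4 * n) := Real.sq_sqrt (Real.sqrt_nonneg _)
  have u4 : u ^ 4 = 4 * n := by
    have : u ^ 4 = (u ^ 2) ^ 2 := by ring
    rw [this, u2, Real.sq_sqrt (by positivity)]
  have u0 : 0 ≤ u := Real.sqrt_nonneg _
  have ub : 1000 ≤ u := by
    by_contra h
    push Not at h
    have : u ^ 4 < 1000 ^ 4 := pow_lt_pow_left₀ h u0 (by norm_num)
    linarith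
  have l1 : Real.log (4 * n) ≤ 4 * u := by
    rw [← u4, Real.log_pow]
    have := Real.log_le_sub_one_of_pos (x := u) (by linarith)
    push_cast
    linarith
  have l2 : Real.log (4 * n + 1) ≤ 8 * u := by
    have h5 : (4 * n + 1 : ℝ) ≤ (4 * n) ^ 2 := by nlinarith
    have := Real.log_le_log (by positivity) h5
    rw [Real.log_pow] at this
    push_cast at this
    linarith
  have l4 : Real.log 4 = 2 * Real.log 2 := by
    rw [show (4 : ℝ) = 2 ^ 2 by norm_num, Real.log_pow]; norm_num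
  have l5 := Real.log_two_gt_d9
  push_cast at h1
  rw [← u2] at h1
  have l6 : 2 * u ^ 2 * Real.log (4 * n) ≤ 2 * u ^ 2 * (4 * u) := by gcongr
  have l7 : 8 * u ≤ u ^ 3 := by nlinarith
  have l8 : 1000 * u ^ 3 ≤ u ^ 4 := by
    have : u ^ 4 = u * u ^ 3 := by ring
    rw [this]; gcongr
  rw [l4] at h2
  nlinarith

lemma sq_bound (d m : ℕ) (x : Fin d → ℤ) (hx : x ∈ box d m) : ∑ i, x i ^ 2 ≤ d * (m : ℤ) ^ 2 := by
  have : ∀ i ∈ (univ : Finset (Fin d)), x i ^ 2 ≤ (m : ℤ) ^ 2 := by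
    intro i _
    have := Finset.mem_Ioo.mp (Fintype.mem_piFinset.mp hx i)
    exact sq_le_sq' this.1.le this.2.le
  simpa using Finset.sum_le_card_nsmul _ _ _ this

lemma prime_exists (r d m n : ℕ) (hn : 10 ^ 12 ≤ n) (hdn : d * m ≤ n)
    (h : ((2 * m : ℕ) : ℝ) ^ d * Real.log (4 * n) < (n : ℝ) ^ (r + 1)) :
    ∃ q, q.Prime ∧ n < q ∧ q ≤ 4 * n ∧ (XX d m q).card < q ^ r := by
  classical
  by_contra hc
  push Not at hc
  set P := (Ioc n (4 * n)).filter Nat.Prime with hP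
  have hdisj : (P : Set ℕ).PairwiseDisjoint (fun q => XX d m q) := by
    intro a ha b hb hab
    simp only [hP, coe_filter, mem_Ioc, Set.mem_ofPred_eq] at ha hb
    refine Finset.disjoint_left.mpr (fun x h1 h2 => ?_)
    simp only [XX, mem_filter] at h1 h2
    have hco : IsCoprime (a : ℤ) (b : ℤ) :=
      Nat.isCoprime_iff_coprime.mpr ((Nat.coprime_primes ha.2 hb.2).mpr hab)
    have hdv := hco.mul_dvd h1.2.2 h2.2.2
    obtain ⟨i, hi⟩ := Function.ne_iff.mp h1.2.1
    have hi : x i ≠ 0 := hi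
    have hpos : 0 < ∑ i, x i ^ 2 :=
      Finset.sum_pos' (fun i _ => sq_nonneg _) ⟨i, mem_univ _, by positivity⟩
    have h3 := (Int.le_of_dvd hpos hdv).trans (sq_bound d m x h1.1)
    have h4 : a * b ≤ d * m ^ 2 := by exact_mod_cast h3
    have h5 : d * m < a := lt_of_le_of_lt hdn ha.1.1
    have h6 : d * m < b := lt_of_le_of_lt hdn hb.1.1
    have h7 : 1 ≤ d := Nat.pos_of_ne_zero (fun e => by subst e; exact i.elim0)
    have h8 : d * m * (d * m) < a * b := Nat.mul_lt_mul'' h5 h6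
    nlinarith
  have h1 : (P.biUnion (fun q => XX d m q)).card ≤ (box d m).card :=
    Finset.card_le_card (Finset.biUnion_subset.mpr (fun q _ => Finset.filter_subset _ _))
  rw [Finset.card_biUnion hdisj] at h1
  have h2 : (box d m).card ≤ (2 * m) ^ d := by
    simp only [box, Fintype.card_piFinset, Int.card_Ioo, Finset.prod_const, card_univ,
      Fintype.card_fin]
    exact Nat.pow_le_pow_left (by omega) _
  have h3 : P.card * n ^ r ≤ ∑ q ∈ P, (XX d m q).card := by
    rw [← smul_eq_mul]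
    refine Finset.card_nsmul_le_sum _ _ _ (fun q hq => ?_)
    simp only [hP, mem_filter, mem_Ioc] at hq
    exact (Nat.pow_le_pow_left hq.1.1.le r).trans (hc q hq.2 hq.1.1 hq.1.2)
  have h4 : (P.card : ℝ) * (n : ℝ) ^ r ≤ ((2 * m : ℕ) : ℝ) ^ d := by
    exact_mod_cast h3.trans (h1.trans h2)
  have h5 := primes_many n hn
  have h6 : 0 ≤ Real.log (4 * n) := by
    have : (1 : ℝ) ≤ n := by exact_mod_cast (by omega : 1 ≤ n)
    exact Real.log_nonneg (by linarith)
  have h7 := mul_le_mul_of_nonneg_right h4 h6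
  have h8 : (n : ℝ) * (n : ℝ) ^ r ≤ (P.card * Real.log (4 * n)) * (n : ℝ) ^ r := by gcongr
  rw [pow_succ] at h
  nlinarith

lemma embed (d m : ℕ) (hm : 1 ≤ m) (S : Finset (Fin d → ℤ)) (h1 : S ⊆ grid d m) (h2 : NoRep S) :
    ∃ S' ⊆ grid (d + 1) m, NoRep S' ∧ S'.card = S.card := by
  classical
  have hd : ∀ p q : Fin d → ℤ, dst (Fin.cons 1 p : Fin (d + 1) → ℤ) (Fin.cons 1 q) = dst p q := by
    intro p q
    simp [dst, Fin.sum_univ_succ]
  refine ⟨S.image (fun p => (Fin.cons 1 p : Fin (d + 1) → ℤ)), ?_, ?_, ?_⟩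
  · intro x hx
    obtain ⟨p, hp, rfl⟩ := mem_image.mp hx
    refine Fintype.mem_piFinset.mpr (fun i => ?_)
    refine Fin.cases ?_ (fun k => ?_) i
    · simpa using hm
    · simpa using Fintype.mem_piFinset.mp (h1 hp) k
  · intro x hx y hy x' hx' y' hy' e1 e2 e3
    obtain ⟨p, hp, rfl⟩ := mem_image.mp hx
    obtain ⟨q, hq, rfl⟩ := mem_image.mp hy
    obtain ⟨p', hp', rfl⟩ := mem_image.mp hx'
    obtain ⟨q', hq', rfl⟩ := mem_image.mp hy'
    rw [hd, hd] at e3
    rcases h2 p hp q hq p' hp' q' hq' (fun e => e1 (by rw [e])) (fun e => e2 (by rw [e])) e3 with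
      ⟨rfl, rfl⟩ | ⟨rfl, rfl⟩
    · exact Or.inl ⟨rfl, rfl⟩
    · exact Or.inr ⟨rfl, rfl⟩
  · exact Finset.card_image_of_injective _ (Fin.cons_right_injective (α := fun _ => ℤ) 1)

lemma embed' (d k m : ℕ) (hm : 1 ≤ m) (S : Finset (Fin d → ℤ)) (h1 : S ⊆ grid d m) (h2 : NoRep S) :
    ∃ S' ⊆ grid (d + k) m, NoRep S' ∧ S'.card = S.card := by
  induction k with
  | zero => exact ⟨S, h1, h2, rfl⟩
  | succ k ih =>
    obtain ⟨S', a, b, c⟩ := ih
    obtain ⟨S'', a', b', c'⟩ := embed (d + k) m hm S' a b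
    exact ⟨S'', a', b', c'.trans c⟩

lemma main (r m : ℕ) (hr : 1 ≤ r) (hm : 10 ^ 12 + (2 * r + 1) ^ 2 + (4 * r + 5) ≤ m) :
    ∃ S ⊆ grid (2 * r + 1) m, NoRep S ∧ m ^ (2 * r + 1) ≤
      16 ^ (r + 1) * (8 ^ (r + 1) * 2 ^ (2 * r + 1) * (4 * r + 5)) ^ (2 * r + 1)
        * ⌈Real.log m⌉₊ ^ (2 * r + 1) * S.card ^ (2 * r + 2) := by
  classical
  obtain ⟨l, hl⟩ : ∃ l, l = ⌈Real.log m⌉₊ := ⟨_, rfl⟩
  rw [← hl]
  have m1 : 10 ^ 12 ≤ m := by omega
  have m2 : (2 * r + 1) ^ 2 ≤ m := by omega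
  have m3 : 4 * r + 5 ≤ m := by omega
  have mR : (10 : ℝ) ^ 12 ≤ m := by exact_mod_cast m1
  have l1 : Real.log m ≤ l := by rw [hl]; exact Nat.le_ceil _
  have l2 : l ≤ m := by
    rw [hl, Nat.ceil_le]
    have := Real.log_le_sub_one_of_pos (x := (m : ℝ)) (by linarith)
    linarith
  have l3 : 1 ≤ l := by
    rw [hl]
    exact Nat.ceil_pos.mpr (Real.log_pos (by linarith))
  obtain ⟨Y, hY⟩ : ∃ Y, Y = (2 * m) ^ (2 * r + 1) * (4 * r + 5) * l := ⟨_, rfl⟩
  have hex : ∃ n, Y < n ^ (r + 1) :=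
    ⟨Y + 1, lt_of_lt_of_le (Nat.lt_succ_self Y) (Nat.le_self_pow (by omega) _)⟩
  obtain ⟨n, hn1, hn2⟩ : ∃ n, Y < n ^ (r + 1) ∧ ∀ k < n, k ^ (r + 1) ≤ Y :=
    ⟨Nat.find hex, Nat.find_spec hex, fun k hk => not_lt.mp (Nat.find_min hex hk)⟩
  have y1 : m ^ (2 * r + 1) ≤ Y := by
    rw [hY]
    calc m ^ (2 * r + 1) ≤ (2 * m) ^ (2 * r + 1) * 1 * 1 := by
          rw [mul_one, mul_one]; exact Nat.pow_le_pow_left (by omega) _
      _ ≤ _ := by gcongr; omega
  have n1 : (2 * r + 1) * m < n := by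
    refine lt_of_pow_lt_pow_left₀ (r + 1) (Nat.zero_le _) (lt_of_le_of_lt ?_ (y1.trans_lt hn1))
    calc ((2 * r + 1) * m) ^ (r + 1) = (2 * r + 1) ^ (r + 1) * m ^ (r + 1) := mul_pow _ _ _
      _ ≤ (2 * r + 1) ^ (2 * r) * m ^ (r + 1) := by gcongr <;> omega
      _ = ((2 * r + 1) ^ 2) ^ r * m ^ (r + 1) := by rw [← pow_mul]
      _ ≤ m ^ r * m ^ (r + 1) := by gcongr
      _ = m ^ (2 * r + 1) := by ring
  have n2 : m < n := by nlinarith
  have n3 : (n - 1) ^ (r + 1) ≤ Y := hn2 _ (by omega)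
  have n4 : n - 1 ≤ Y := (Nat.le_self_pow (by omega) _).trans n3
  have n5 : 4 * n ≤ m ^ (4 * r + 5) := by
    calc 4 * n ≤ 8 * Y := by omega
      _ = 8 * ((2 * m) ^ (2 * r + 1) * (4 * r + 5) * l) := by rw [hY]
      _ ≤ m * ((m * m) ^ (2 * r + 1) * m * m) := by gcongr <;> omega
      _ = m ^ (4 * r + 5) := by ring
  have n6 : Real.log (4 * n) ≤ (4 * r + 5 : ℕ) * (l : ℝ) := by
    have h1 : (4 * n : ℝ) ≤ (m : ℝ) ^ (4 * r + 5) := by exact_mod_cast n5
    have h0 : (0 : ℝ) < n := by exact_mod_cast (by omega : 0 < n)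
    have := Real.log_le_log (by positivity) h1
    rw [Real.log_pow] at this
    exact this.trans (by gcongr)
  obtain ⟨q, hq, q1, q2, q3⟩ := prime_exists r (2 * r + 1) m n (by omega) n1.le (by
    have h1 : (Y : ℝ) < (n : ℝ) ^ (r + 1) := by exact_mod_cast hn1
    refine lt_of_le_of_lt ?_ h1
    have h2 : (Y : ℝ) = ((2 * m : ℕ) : ℝ) ^ (2 * r + 1) * (((4 * r + 5 : ℕ) : ℝ) * l) := by
      rw [hY]; push_cast; ring
    rw [h2]
    gcongr)
  have := Fact.mk hq
  have s1 : 8 ≤ Nat.sqrt q := Nat.le_sqrt'.mpr (by omega)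
  obtain ⟨p, hp, p1, p2⟩ := Nat.exists_prime_lt_and_le_two_mul (Nat.sqrt q / 4) (by omega)
  have s2 := Nat.sqrt_le' q
  have s3 := Nat.lt_succ_sqrt' q
  have p3 : 4 * p ^ 2 ≤ q := by
    have : (2 * p) ^ 2 ≤ Nat.sqrt q ^ 2 := Nat.pow_le_pow_left (by omega) 2
    nlinarith
  have p4 : q ≤ 16 * p ^ 2 := by
    have : (Nat.sqrt q).succ ^ 2 ≤ (4 * p) ^ 2 := Nat.pow_le_pow_left (by omega) 2
    nlinarith
  obtain ⟨S, hS1, hS2, hS3⟩ := core r m q p hp (by omega) p3 (by omega) q3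
  refine ⟨S, hS1, hS2, ?_⟩
  have a1 : (m ^ (2 * r + 1)) ^ 2 ≤ 16 * S.card ^ 2 * q ^ (2 * r + 1) := by
    refine Nat.le_of_mul_le_mul_right ?_ hq.pos
    calc (m ^ (2 * r + 1)) ^ 2 * q ≤ (m ^ (2 * r + 1)) ^ 2 * (16 * p ^ 2) := by gcongr
      _ = 16 * (m ^ (2 * r + 1) * p) ^ 2 := by ring
      _ ≤ 16 * (S.card * q ^ (r + 1)) ^ 2 := by gcongr
      _ = _ := by ring
  have a2 : q ^ (r + 1) ≤ 8 ^ (r + 1) * Y := by
    calc q ^ (r + 1) ≤ (8 * (n - 1)) ^ (r + 1) := Nat.pow_le_pow_left (by omega) _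
      _ = 8 ^ (r + 1) * (n - 1) ^ (r + 1) := mul_pow _ _ _
      _ ≤ _ := by gcongr
  refine Nat.le_of_mul_le_mul_right ?_ (pow_pos (pow_pos (by omega : 0 < m) (2 * r + 1)) (2 * r + 1))
  calc m ^ (2 * r + 1) * (m ^ (2 * r + 1)) ^ (2 * r + 1) = ((m ^ (2 * r + 1)) ^ 2) ^ (r + 1) := by ring
    _ ≤ (16 * S.card ^ 2 * q ^ (2 * r + 1)) ^ (r + 1) := by gcongr
    _ = 16 ^ (r + 1) * S.card ^ (2 * r + 2) * (q ^ (r + 1)) ^ (2 * r + 1) := by
      rw [mul_pow, mul_pow, ← pow_mul, ← pow_mul, ← pow_mul, mul_comm (r + 1)]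
      rfl
    _ ≤ 16 ^ (r + 1) * S.card ^ (2 * r + 2) * (8 ^ (r + 1) * Y) ^ (2 * r + 1) := by gcongr
    _ = _ := by
      rw [hY]
      simp only [mul_pow]
      generalize (8 ^ (r + 1)) ^ (2 * r + 1) = A
      generalize (2 ^ (2 * r + 1)) ^ (2 * r + 1) = B
      generalize (m ^ (2 * r + 1)) ^ (2 * r + 1) = C
      generalize (4 * r + 5) ^ (2 * r + 1) = D
      ring

theorem result (r d : ℕ) (hr : 1 ≤ r) (hd : 2 * r + 1 ≤ d) :
    ∃ c : ℝ, 0 < c ∧ ∃ m₀ : ℕ, ∀ m : ℕ, m₀ ≤ m → ∃ S ⊆ grid d m, NoRep S ∧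
      c * ((m : ℝ) / Real.log m) ^ ((2 * r + 1 : ℝ) / (2 * r + 2)) ≤ S.card := by
  obtain ⟨k, rfl⟩ := Nat.exists_eq_add_of_le hd
  obtain ⟨C, hC⟩ : ∃ C : ℕ, C =
    16 ^ (r + 1) * (8 ^ (r + 1) * 2 ^ (2 * r + 1) * (4 * r + 5)) ^ (2 * r + 1) := ⟨_, rfl⟩
  have C0 : (0 : ℝ) < C := by rw [hC]; positivity
  obtain ⟨E, hE⟩ : ∃ E : ℝ, E = C * 2 ^ (2 * r + 1) := ⟨_, rfl⟩
  have E0 : 0 < E := by rw [hE]; positivity
  refine ⟨(E⁻¹) ^ (((2 * r + 2 : ℕ) : ℝ)⁻¹), by positivity,
    10 ^ 12 + (2 * r + 1) ^ 2 + (4 * r + 5), fun m hm => ?_⟩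
  obtain ⟨S, h1, h2, h3⟩ := main r m hr hm
  obtain ⟨S', a, b, c⟩ := embed' (2 * r + 1) k m (by omega) S h1 h2
  refine ⟨S', a, b, ?_⟩
  rw [c]
  rw [← hC] at h3
  have mR : (10 : ℝ) ^ 12 ≤ m := by exact_mod_cast (by omega : 10 ^ 12 ≤ m)
  have l1 : 1 ≤ Real.log m := by
    rw [Real.le_log_iff_exp_le (by linarith)]
    have := Real.exp_one_lt_d9
    linarith
  have l2 : (⌈Real.log m⌉₊ : ℝ) ≤ 2 * Real.log m := by
    have := Nat.ceil_lt_add_one (a := Real.log m) (by linarith)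
    linarith
  have h4 : (m : ℝ) ^ (2 * r + 1) ≤
      C * (⌈Real.log m⌉₊ : ℝ) ^ (2 * r + 1) * (S.card : ℝ) ^ (2 * r + 2) := by exact_mod_cast h3
  have h5 : E⁻¹ * ((m : ℝ) / Real.log m) ^ (2 * r + 1) ≤ (S.card : ℝ) ^ (2 * r + 2) := by
    rw [div_pow, inv_mul_le_iff₀ E0, div_le_iff₀ (by positivity), hE]
    calc _ ≤ _ := h4
      _ ≤ C * (2 * Real.log m) ^ (2 * r + 1) * (S.card : ℝ) ^ (2 * r + 2) := by gcongr
      _ = _ := by rw [mul_pow]; ring
  have x0 : (0 : ℝ) ≤ (m : ℝ) / Real.log m := by positivity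
  have h6 := Real.rpow_le_rpow (by positivity) h5
    (by positivity : (0 : ℝ) ≤ ((2 * r + 2 : ℕ) : ℝ)⁻¹)
  rw [Real.pow_rpow_inv_natCast (by positivity) (by omega),
    Real.mul_rpow (by positivity) (by positivity), ← Real.rpow_natCast _ (2 * r + 1),
    ← Real.rpow_mul x0] at h6
  convert h6 using 3
  push_cast
  rw [div_eq_mul_inv]

end Pool.Agent.Results.MP_060d7c_co.Lower
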